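import Mathlib
import Pool.Agent.H55.AE.Core

/-!
# The iterated equations for the constants in arithmetic progressions: the core theorem at one scale

The coloured Maynard-Tao theorem with the constant `18 / 5` (`Pool.Agent.Y827.RO.lamR0`), the lemma on
homothetic copies (`Pool.Agent.Y863.AA.copy`), the proof for almost all constants
(`Pool.Agent.Y863.AR.coreR`) and the lemmas on rational iterates (`Pool.Agent.W25.IT.Rat`) are from the
library.
-/

set_option autoImplicit false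
set_option maxHeartbeats 1000000

namespace Pool.Agent.H55.PC

open Finset Filter Pool.Agent.W25.IT Pool.Agent.W25.IT.Rat Pool.Agent.Y863.AA Pool.Agent.Y863.AR Nat
open Pool.Agent.Y827.RO Pool.Agent.Y827.GS Pool.Agent.H55.AE

/-- the constants which are bad at one scale -/
def BadC {T : ℕ} (M : ℕ) (e : Fin T → ℕ) (a b C B X : ℕ) (c : ℤ) : Prop :=
  Q0 a b c ∧ c ≠ 0 ∧ Miss e a b c ∧ (B : ℤ) * |c| ≤ X ∧
    NoClR M e a b c ((X : ℝ) / (Real.log X) ^ C) (X / B) X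

open Classical in
/-- **The core theorem.** The bad constants contain no long arithmetic progressions. -/
theorem coreP (T M : ℕ) (hTM : (18 / 5 : ℝ) * M < T) : ∃ C : ℕ, ∀ (m : ℕ) (e : Fin T → ℕ),
    StrictMono e → (∀ g, e g ≤ m) → ∀ a b : ℕ, 1 ≤ a → 1 ≤ b → IsCoprime (a : ℤ) b →
    ∃ n q B : ℕ, 1 ≤ n ∧ 1 ≤ q ∧ 1 ≤ B ∧ ∀ᶠ X : ℕ in atTop, ∀ (x₀ : ℤ) (d : ℕ), 1 ≤ d →
      ¬ ∀ j : ℕ, j ≤ n → BadC M e a b C B X (x₀ + j * (q * d)) := by
  have hT : 1 ≤ T := by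
    have h1 : (0 : ℝ) ≤ (18 / 5 : ℝ) * M := by positivity
    have h2 : (0 : ℝ) < T := lt_of_le_of_lt h1 hTM
    exact_mod_cast h2
  obtain ⟨K, hK, δ, -, hex⟩ := lamR0 T M hT hTM
  refine ⟨T * K + 2, fun m e he hem a b ha hb hab => ?_⟩
  have : Nonempty (Fin T) := ⟨⟨0, hT⟩⟩
  have : Nonempty (Fin K) := ⟨⟨0, hK⟩⟩
  obtain ⟨n₁, hn₁, hcopy⟩ := copy ((Fin T × Fin K) × (Fin T × Fin K)) (Finset (Fin T × Fin T))
    (1 / 2) (by norm_num)
  obtain ⟨A, hA⟩ : ∃ A : ℕ, A = max a b := ⟨_, rfl⟩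
  have haA : a ≤ A := by rw [hA]; exact le_max_left _ _
  have hbA : b ≤ A := by rw [hA]; exact le_max_right _ _
  have hA1 : 1 ≤ A := ha.trans haA
  have haz : (1 : ℤ) ≤ a := by exact_mod_cast ha
  have hbz : (1 : ℤ) ≤ b := by exact_mod_cast hb
  obtain ⟨w, hw⟩ := exists_beta (a : ℤ) b 1 (by omega) hab (m + 2)
  obtain ⟨sm, hsm⟩ : ∃ sm : ℕ, sm = ∑ i ∈ range (m + 3), (w i).natAbs := ⟨_, rfl⟩
  have hwm : ∀ i, i ≤ m + 2 → |w i| ≤ (sm : ℤ) := by
    intro i hi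
    rw [hsm, Int.abs_eq_natAbs]
    exact_mod_cast single_le_sum (f := fun i => (w i).natAbs) (fun _ _ => Nat.zero_le _)
      (mem_range.2 (by omega : i < m + 3))
  have hdm : 1 ≤ A ^ (m + 2) := Nat.one_le_pow _ _ hA1
  obtain ⟨P, hP⟩ : ∃ P : ℕ, P = prR a b m := ⟨_, rfl⟩
  have hP1 : 0 < P := by rw [hP]; exact prR_pos ha hb m
  obtain ⟨q, hq⟩ : ∃ q : ℕ, q = a * b * (T * K + 2)! := ⟨_, rfl⟩
  have hfac : 1 ≤ (T * K + 2)! := Nat.succ_le_of_lt (Nat.factorial_pos _)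
  have hq1 : 1 ≤ q := by rw [hq]; exact Nat.mul_pos (Nat.mul_pos ha hb) hfac
  obtain ⟨S₀, hS₀⟩ : ∃ S₀ : ℕ, S₀ = sm + 2 * (n₁ * P * K) + 2 := ⟨_, rfl⟩
  have hS₀1 : 0 < S₀ := by omega
  refine ⟨n₁ * (P * K * A ^ m) + 1, q, 200 * S₀ * A ^ (m + 2), by omega, hq1,
    Nat.succ_le_of_lt (Nat.mul_pos (Nat.mul_pos (by norm_num) hS₀1) hdm), ?_⟩
  have hdivt : Tendsto (fun X : ℕ => X / (2 * A ^ (m + 2))) atTop atTop := by
    refine tendsto_atTop.2 fun b => ?_
    filter_upwards [eventually_ge_atTop (b * (2 * A ^ (m + 2)))] with X hX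
    exact (Nat.le_div_iff_mul_le (by omega)).2 hX
  obtain ⟨s₀, cc, hcc, hex⟩ := hex (A ^ (m + 2))
  filter_upwards [hdivt.eventually hex, scaleL (2 * A ^ (m + 2)) (T * K + 1) (by omega) cc hcc,
    eventually_ge_atTop 1, hdivt.eventually (eventually_ge_atTop 1)]
    with X hN hsc hX1 hN1 x₀ d hd hall
  obtain ⟨N, hNdef⟩ : ∃ N : ℕ, N = X / (2 * A ^ (m + 2)) := ⟨_, rfl⟩
  rw [← hNdef] at hN hsc hN1
  have haq : (a : ℤ) ∣ (q : ℤ) := by
    rw [hq]; push_cast; rw [mul_assoc]; exact Dvd.intro _ rfl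
  have hbq : (b : ℤ) ∣ (q : ℤ) := by
    rw [hq]; push_cast; rw [mul_assoc]; exact Dvd.dvd.mul_left (Dvd.intro _ rfl) _
  -- the shape
  obtain ⟨v, hv⟩ : ∃ v : (Fin T × Fin K) × (Fin T × Fin K) → ℤ, v = fun z =>
    if z.1.1 < z.2.1 then (P : ℤ) / sr a b (e z.2.1 - e z.1.1) *
      ((a : ℤ) ^ (e z.2.1 - e z.1.1) * ((z.2.2 : ℕ) : ℤ) -
        (b : ℤ) ^ (e z.2.1 - e z.1.1) * ((z.1.2 : ℕ) : ℤ)) else 0 := ⟨_, rfl⟩
  have hej : ∀ g h : Fin T, g < h → 1 ≤ e h - e g ∧ e h - e g ≤ m := by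
    intro g h hgh
    have h1 := he hgh
    have h2 := hem h
    constructor <;> omega
  have hvb : ∀ z, |v z| ≤ ((P * K * A ^ m : ℕ) : ℤ) := by
    intro z
    rw [hv]
    simp only
    split_ifs with hz
    · obtain ⟨hj1, hj2⟩ := hej _ _ hz
      obtain ⟨j, hj⟩ : ∃ j, j = e z.2.1 - e z.1.1 := ⟨_, rfl⟩
      rw [← hj] at hj1 hj2 ⊢
      have hg := sr_pos ha hb hj1
      rw [abs_mul]
      have h1 : |(P : ℤ) / sr a b j| ≤ P := by
        rw [abs_of_nonneg (Int.ediv_nonneg (Nat.cast_nonneg _) hg.le)]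
        exact Int.ediv_le_self _ (Nat.cast_nonneg _)
      have hk1 : ((z.2.2 : ℕ) : ℤ) ≤ K := by exact_mod_cast z.2.2.2.le
      have hk0 : (0 : ℤ) ≤ ((z.2.2 : ℕ) : ℤ) := Nat.cast_nonneg _
      have hi1 : ((z.1.2 : ℕ) : ℤ) ≤ K := by exact_mod_cast z.1.2.2.le
      have hi0 : (0 : ℤ) ≤ ((z.1.2 : ℕ) : ℤ) := Nat.cast_nonneg _
      have hKz : (0 : ℤ) ≤ (K : ℤ) := Nat.cast_nonneg _
      have hpw : ∀ y : ℕ, 1 ≤ y → y ≤ A → (0 : ℤ) ≤ (y : ℤ) ^ j ∧ (y : ℤ) ^ j ≤ (A : ℤ) ^ m := by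
        intro y hy hyA
        constructor
        · positivity
        · exact_mod_cast (Nat.pow_le_pow_left hyA j).trans (Nat.pow_le_pow_right hA1 hj2)
      obtain ⟨ha1, ha2⟩ := hpw a ha haA
      obtain ⟨hb1, hb2⟩ := hpw b hb hbA
      have hAm : (0 : ℤ) ≤ (A : ℤ) ^ m := by positivity
      have h2 : |(a : ℤ) ^ j * ((z.2.2 : ℕ) : ℤ) - (b : ℤ) ^ j * ((z.1.2 : ℕ) : ℤ)| ≤
          K * (A : ℤ) ^ m := by
        have h3 : (a : ℤ) ^ j * ((z.2.2 : ℕ) : ℤ) ≤ (A : ℤ) ^ m * K := mul_le_mul ha2 hk1 hk0 hAm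
        have h4 : (b : ℤ) ^ j * ((z.1.2 : ℕ) : ℤ) ≤ (A : ℤ) ^ m * K := mul_le_mul hb2 hi1 hi0 hAm
        have h5 : (0 : ℤ) ≤ (a : ℤ) ^ j * ((z.2.2 : ℕ) : ℤ) := mul_nonneg ha1 hk0
        have h6 : (0 : ℤ) ≤ (b : ℤ) ^ j * ((z.1.2 : ℕ) : ℤ) := mul_nonneg hb1 hi0
        rw [abs_le]
        constructor <;> linarith
      calc |(P : ℤ) / sr a b j| *
            |(a : ℤ) ^ j * ((z.2.2 : ℕ) : ℤ) - (b : ℤ) ^ j * ((z.1.2 : ℕ) : ℤ)|
          ≤ P * (K * (A : ℤ) ^ m) := mul_le_mul h1 h2 (abs_nonneg _) (Nat.cast_nonneg _)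
        _ = _ := by push_cast; ring
    · rw [abs_zero]; exact Nat.cast_nonneg _
  obtain ⟨H, hH⟩ : ∃ H : ℕ, H = n₁ * (P * K * A ^ m) + 1 := ⟨_, rfl⟩
  obtain ⟨x₁, l₁, G, hl1, hln, hx⟩ := hcopy (fun _ => True) 1 0 (fun _ _ _ _ _ _ => trivial) le_rfl
    v (P * K * A ^ m) hvb H (by rw [Nat.div_one, hH]; omega) (by omega) (Ioc (0 : ℤ) (0 + H))
    (subset_refl _) (fun _ _ => trivial)
    (fun k => univ.filter (fun z : Fin T × Fin T => z.1 < z.2 ∧
      (X : ℝ) / (Real.log X) ^ (T * K + 2) ≤ (cntR a b (x₀ + k * (q * d)) (e z.2 - e z.1)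
        (X / ((200 * S₀ * A ^ (m + 2) : ℕ) : ℝ)) X : ℝ))) (by
      have h1 : (0 : ℝ) < ((Ioc (0 : ℤ) (0 + H)).card : ℝ) := by
        rw [Int.card_Ioc]
        have : (0 + (H : ℤ) - 0).toNat = H := by omega
        rw [this]
        exact_mod_cast (by omega : 0 < H)
      refine lt_of_le_of_lt (b := (1 / 2 : ℝ) * ((Ioc (0 : ℤ) (0 + H)).card : ℝ))
        (mul_le_mul_of_nonneg_left ?_ (by norm_num)) (by linarith)
      rw [Nat.cast_le]
      exact filt_le _ _ _)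
  -- the constants of the copy
  have hv0 : v ((Classical.arbitrary (Fin T), Classical.arbitrary (Fin K)),
      (Classical.arbitrary (Fin T), Classical.arbitrary (Fin K))) = 0 := by
    rw [hv]; simp
  obtain ⟨L, hL⟩ : ∃ L : ℕ, L = l₁ * d := ⟨_, rfl⟩
  have hL1 : 1 ≤ L := by rw [hL]; exact Nat.mul_pos (by omega) (by omega)
  obtain ⟨x, hxdef⟩ : ∃ x : ℤ, x = x₀ + x₁ * (q * d) := ⟨_, rfl⟩
  have hy : ∀ z, BadC M e a b (T * K + 2) (200 * S₀ * A ^ (m + 2)) X (x + L * (q * v z)) ∧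
      univ.filter (fun y : Fin T × Fin T => y.1 < y.2 ∧
      (X : ℝ) / (Real.log X) ^ (T * K + 2) ≤ (cntR a b (x + L * (q * v z)) (e y.2 - e y.1)
        (X / ((200 * S₀ * A ^ (m + 2) : ℕ) : ℝ)) X : ℝ)) = G := by
    intro z
    obtain ⟨h1, h2⟩ := hx z
    have h3 := mem_Ioc.1 h1
    have h4 : x + L * (q * v z) = x₀ + (x₁ + l₁ * (((1 : ℕ) : ℤ) * v z)) * (q * d) := by
      rw [hxdef, hL]
      push_cast
      ring
    constructor
    · have h5 := hall (x₁ + l₁ * (((1 : ℕ) : ℤ) * v z)).toNat (by omega)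
      have h6 : (((x₁ + l₁ * (((1 : ℕ) : ℤ) * v z)).toNat : ℕ) : ℤ) =
          x₁ + l₁ * (((1 : ℕ) : ℤ) * v z) := Int.toNat_of_nonneg (by omega)
      rw [h6, ← h4] at h5
      exact h5
    · rw [h4]
      exact h2
  clear hx
  -- the base point
  have hx0 := hy ((Classical.arbitrary _, Classical.arbitrary _),
    (Classical.arbitrary _, Classical.arbitrary _))
  rw [hv0, mul_zero, mul_zero, add_zero] at hx0
  obtain ⟨⟨hxQ, hxne, hxE, hxB, hxN⟩, hxG⟩ := hx0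
  -- the size of the difference
  have hqd : ((200 * S₀ * A ^ (m + 2) : ℕ) : ℤ) * (q * d) ≤ 2 * X := by
    have h0 := (hall 0 (by omega)).2.2.2.1
    have h1 := (hall 1 (by omega)).2.2.2.1
    have h2 : ((200 * S₀ * A ^ (m + 2) : ℕ) : ℤ) * |(q : ℤ) * d| ≤
        ((200 * S₀ * A ^ (m + 2) : ℕ) : ℤ) * (|x₀ + ((0 : ℕ) : ℤ) * (q * d)| +
          |x₀ + ((1 : ℕ) : ℤ) * (q * d)|) := by
      apply mul_le_mul_of_nonneg_left _ (Nat.cast_nonneg _)
      have h3 : (q : ℤ) * d = (x₀ + ((1 : ℕ) : ℤ) * (q * d)) - (x₀ + ((0 : ℕ) : ℤ) * (q * d)) := by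
        push_cast; ring
      calc |(q : ℤ) * d| = |(x₀ + ((1 : ℕ) : ℤ) * (q * d)) - (x₀ + ((0 : ℕ) : ℤ) * (q * d))| := by
            rw [← h3]
        _ ≤ |x₀ + ((1 : ℕ) : ℤ) * (q * d)| + |x₀ + ((0 : ℕ) : ℤ) * (q * d)| := abs_sub _ _
        _ = _ := add_comm _ _
    have h3 : |(q : ℤ) * d| = q * d := abs_of_nonneg (by positivity)
    rw [h3, mul_add] at h2
    linarith
  -- the forms
  obtain ⟨D, hD⟩ : ∃ D : Fin T → ℤ, D = fun g =>
    (a : ℤ) ^ (m + 2 - (e g + 1)) * (b : ℤ) ^ (e g + 1) := ⟨_, rfl⟩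
  obtain ⟨β, hβ⟩ : ∃ β : Fin T → Fin K → ℤ, β = fun (g : Fin T) (i : Fin K) =>
    x * w (e g + 1) + L * (q * (P * ((i : ℕ) : ℤ))) := ⟨_, rfl⟩
  have hcross : ∀ (g h : Fin T) (i k : Fin K), g < h →
      (a : ℤ) ^ (e h - e g) * β h k - (b : ℤ) ^ (e h - e g) * β g i =
        cj a b (x + L * (q * v ((g, i), (h, k)))) (e h - e g) := by
    intro g h i k hgh
    obtain ⟨hj1, hj2⟩ := hej g h hgh
    have h0 : e h = e g + (e h - e g) := by have := he hgh; omega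
    have h1 := beta_iter hw (e g + 1) (e h - e g) (by have := hem h; omega)
    have h2 : (P : ℤ) = sr a b (e h - e g) * ((P : ℤ) / sr a b (e h - e g)) := by
      rw [hP]; exact (Int.mul_ediv_cancel' (prR_dvd a b m hj1 hj2)).symm
    have h3 : e g + 1 + (e h - e g) = e h + 1 := by omega
    rw [h3, cj_eq] at h1
    rw [hβ, cj_eq, hv]
    simp only [if_pos hgh]
    generalize (P : ℤ) / sr a b (e h - e g) = R at h2 ⊢
    generalize e h - e g = j at h1 h2 ⊢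
    linear_combination x * h1 + (L : ℤ) * q * ((a : ℤ) ^ j * ((k : ℕ) : ℤ) -
      (b : ℤ) ^ j * ((i : ℕ) : ℤ)) * h2
  have hDrel : ∀ g h : Fin T, g < h →
      (a : ℤ) ^ (e h - e g) * D h = (b : ℤ) ^ (e h - e g) * D g := by
    intro g h hgh
    have h0 : e h = e g + (e h - e g) := by have := he hgh; omega
    have h1 := D_rel (a : ℤ) b (m := m) (i := e g) (j := e h - e g) (by have := hem h; omega)
    rw [← h0] at h1
    rw [hD]
    exact h1
  have hbb : ∀ g i, 100 * |β g i| ≤ N := by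
    intro g i
    have h1 : |β g i| ≤ |x| * sm + (n₁ * P * K : ℕ) * (q * d) := by
      rw [hβ]
      have h2 : |x * w (e g + 1)| ≤ |x| * sm := by
        rw [abs_mul]
        exact mul_le_mul_of_nonneg_left (hwm _ (by have := hem g; omega)) (abs_nonneg _)
      have h3 : |(L : ℤ) * (q * (P * ((i : ℕ) : ℤ)))| ≤ (n₁ * P * K : ℕ) * (q * d) := by
        rw [abs_of_nonneg (by positivity), hL]
        have h4 : l₁ * d * (q * (P * (i : ℕ))) ≤ (n₁ * P * K) * (q * d) := by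
          calc l₁ * d * (q * (P * (i : ℕ))) ≤ n₁ * d * (q * (P * K)) :=
                Nat.mul_le_mul (Nat.mul_le_mul_right _ hln)
                  (Nat.mul_le_mul_left _ (Nat.mul_le_mul_left _ i.2.le))
            _ = (n₁ * P * K) * (q * d) := by ring
        exact_mod_cast h4
      exact (abs_add_le _ _).trans (add_le_add h2 h3)
    have h2 : (100 * (|x| * sm + (n₁ * P * K : ℕ) * (q * d))) * (2 * (A : ℤ) ^ (m + 2)) ≤ X := by
      have hS : (0 : ℤ) < (S₀ : ℤ) := by exact_mod_cast (by omega : 0 < S₀)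
      have hS' : (S₀ : ℤ) = sm + 2 * (n₁ * P * K : ℕ) + 2 := by rw [hS₀]; push_cast; ring
      have hXz : (0 : ℤ) ≤ X := Nat.cast_nonneg _
      have hsmz : (0 : ℤ) ≤ (sm : ℤ) := Nat.cast_nonneg _
      have hRz : (0 : ℤ) ≤ ((n₁ * P * K : ℕ) : ℤ) := Nat.cast_nonneg _
      refine le_of_mul_le_mul_left ?_ hS
      generalize ((n₁ * P * K : ℕ) : ℤ) = R at *
      have h5 : (sm : ℤ) * (((200 * S₀ * A ^ (m + 2) : ℕ) : ℤ) * |x|) ≤ sm * X :=
        mul_le_mul_of_nonneg_left hxB hsmz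
      have h6 : R * (((200 * S₀ * A ^ (m + 2) : ℕ) : ℤ) * (q * d)) ≤ R * (2 * X) :=
        mul_le_mul_of_nonneg_left hqd hRz
      calc (S₀ : ℤ) * ((100 * (|x| * sm + R * (q * d))) * (2 * (A : ℤ) ^ (m + 2))) =
            (sm : ℤ) * (((200 * S₀ * A ^ (m + 2) : ℕ) : ℤ) * |x|) +
              R * (((200 * S₀ * A ^ (m + 2) : ℕ) : ℤ) * (q * d)) := by push_cast; ring
        _ ≤ sm * X + R * (2 * X) := add_le_add h5 h6
        _ ≤ (S₀ : ℤ) * X := by rw [hS']; linarith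
    have h4 : (100 * (|x| * sm + (n₁ * P * K : ℕ) * (q * d))) ≤ (N : ℤ) := by
      have h5 : (N : ℤ) = (X : ℤ) / (2 * (A : ℤ) ^ (m + 2)) := by rw [hNdef]; push_cast; rfl
      rw [h5]
      have h6 : (1 : ℤ) ≤ (A : ℤ) ^ (m + 2) := by exact_mod_cast hdm
      exact (Int.le_ediv_iff_mul_le (by linarith)).2 h2
    linarith
  have hN0 : (0 : ℝ) < N := by exact_mod_cast hN1
  have hbr : ∀ g i, |(β g i : ℝ)| ≤ N / 100 := by
    intro g i
    have h1 : (100 : ℝ) * |(β g i : ℝ)| ≤ N := by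
      have h2 := hbb g i
      have h3 : ((100 * |β g i| : ℤ) : ℝ) ≤ N := by exact_mod_cast h2
      rw [Int.cast_mul, Int.cast_abs] at h3
      exact_mod_cast h3
    linarith
  have hDle : ∀ g : Fin T, (1 : ℤ) ≤ D g ∧ D g ≤ (A : ℤ) ^ (m + 2) := by
    intro g
    have hDg : D g = (a : ℤ) ^ (m + 2 - (e g + 1)) * (b : ℤ) ^ (e g + 1) := by rw [hD]
    rw [hDg]
    constructor
    · exact_mod_cast Nat.mul_pos (Nat.one_le_pow (m + 2 - (e g + 1)) _ ha)
        (Nat.one_le_pow (e g + 1) _ hb)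
    · have h1 : a ^ (m + 2 - (e g + 1)) * b ^ (e g + 1) ≤ A ^ (m + 2) := by
        calc a ^ (m + 2 - (e g + 1)) * b ^ (e g + 1) ≤ A ^ (m + 2 - (e g + 1)) * A ^ (e g + 1) :=
              Nat.mul_le_mul (Nat.pow_le_pow_left haA _) (Nat.pow_le_pow_left hbA _)
          _ = A ^ (m + 2) := by
              rw [← pow_add]
              congr 1
              have := hem g
              omega
      exact_mod_cast h1
  have hvalue : ∀ g i, ∀ y : ℝ, (N : ℝ) / 16 ≤ y →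
      (N : ℝ) / 24 ≤ (D g : ℝ) * y + (β g i : ℝ) := by
    intro g i y hy
    have h1 := abs_le.1 (hbr g i)
    have h2 : (1 : ℝ) ≤ (D g : ℝ) := by exact_mod_cast (hDle g).1
    have h3 : y ≤ (D g : ℝ) * y := le_mul_of_one_le_left (by
      have : (0 : ℝ) ≤ (N : ℝ) / 16 := by positivity
      linarith) h2
    linarith [h1.1]
  -- the local condition
  have hloc : ∀ p : ℕ, p.Prime → ∃ y : ℤ, ∀ g i, ¬ (p : ℤ) ∣ D g * y + β g i := by
    intro p hp
    have hpp := Nat.prime_iff_prime_int.1 hp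
    by_cases hpq : p ∣ q
    · obtain ⟨y, hy⟩ := base_adm hab hxQ hxE hem hw hp
      refine ⟨y, fun g i hdv => hy g ?_⟩
      have h1 : (p : ℤ) ∣ L * (q * (P * ((i : ℕ) : ℤ))) :=
        Dvd.dvd.mul_left (Dvd.dvd.mul_right (by exact_mod_cast hpq) _) _
      have h2 : D g * y + β g i = ((a : ℤ) ^ (m + 2 - (e g + 1)) * (b : ℤ) ^ (e g + 1) * y +
          x * w (e g + 1)) + L * (q * (P * ((i : ℕ) : ℤ))) := by
        rw [hβ, hD]; ring
      rw [h2] at hdv
      exact (dvd_add_left h1).1 hdv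
    · have hpa : ¬ p ∣ a := fun h => hpq (by
        rw [hq]; exact Dvd.dvd.mul_right (Dvd.dvd.mul_right h _) _)
      have hpb : ¬ p ∣ b := fun h => hpq (by
        rw [hq]; exact Dvd.dvd.mul_right (Dvd.dvd.mul_left h _) _)
      have hpK : T * K < p := by
        by_contra hle
        push Not at hle
        apply hpq
        rw [hq]
        exact Dvd.dvd.mul_left (Nat.dvd_factorial hp.pos (by omega)) _
      obtain ⟨y, hy⟩ := avoid (ι := Fin T × Fin K) (fun z => D z.1)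
        (fun z => β z.1 z.2) hp (by
          intro z hz
          rw [hD] at hz
          rcases hpp.dvd_or_dvd hz with h1 | h1
          · exact hpa (by exact_mod_cast hpp.dvd_of_dvd_pow h1)
          · exact hpb (by exact_mod_cast hpp.dvd_of_dvd_pow h1)) (by
          rw [Fintype.card_prod, Fintype.card_fin, Fintype.card_fin]; exact hpK)
      exact ⟨y, fun g i => hy (g, i)⟩
  have hcop : ∀ g i, IsCoprime (D g) (β g i) := by
    intro g i
    rw [Int.isCoprime_iff_gcd_eq_one]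
    by_contra hne
    obtain ⟨p, hp, hpd⟩ := Nat.exists_prime_and_dvd hne
    have h1 : (p : ℤ) ∣ (Int.gcd (D g) (β g i) : ℤ) := Int.natCast_dvd_natCast.2 hpd
    obtain ⟨n, hn⟩ := hloc p hp
    exact hn g i (dvd_add (Dvd.dvd.mul_right (h1.trans (Int.gcd_dvd_left _ _)) _)
      (h1.trans (Int.gcd_dvd_right _ _)))
  obtain ⟨_, S, σ, -, -, -, hS, hcard⟩ := hN (fun g i => (D g, β g i)) (by
      have hlt : ∀ (g h : Fin T) (i k : Fin K), g < h → (D g, β g i) ≠ (D h, β h k) := by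
        intro g h i k hgh heq
        obtain ⟨h1, h2⟩ := Prod.ext_iff.1 heq
        simp only at h1 h2
        have h3 := hcross g h i k hgh
        have h4 := hDrel g h hgh
        obtain ⟨hj1, hj2⟩ := hej g h hgh
        rw [← h1] at h4
        have h5 := mul_right_cancel₀ (by have := (hDle g).1; omega : D g ≠ 0) h4
        rw [h5, ← h2, sub_self, cj_eq] at h3
        have h9 := (hy ((g, i), (h, k))).1.2.1
        rcases mul_eq_zero.1 h3.symm with h10 | h10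
        · exact h9 h10
        · exact (sr_pos ha hb hj1).ne' h10
      rintro ⟨g, i⟩ ⟨h, k⟩ heq
      simp only at heq
      rcases lt_trichotomy g h with hgh | hgh | hgh
      · exact absurd heq (hlt g h i k hgh)
      · subst hgh
        have h2 := (Prod.ext_iff.1 heq).2
        rw [hβ] at h2
        simp only at h2
        have h3 := add_left_cancel h2
        have h4 : (L : ℤ) ≠ 0 := by exact_mod_cast (by omega : L ≠ 0)
        have h5 : (q : ℤ) ≠ 0 := by exact_mod_cast (by omega : q ≠ 0)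
        have h6 : (P : ℤ) ≠ 0 := by exact_mod_cast hP1.ne'
        have h7 := mul_left_cancel₀ h6 (mul_left_cancel₀ h5 (mul_left_cancel₀ h4 h3))
        have h8 : i = k := Fin.ext (by exact_mod_cast h7)
        rw [h8]
      · exact absurd heq.symm (hlt h g k i hgh))
    (by
      intro g i
      refine ⟨by have := (hDle g).1; show D g ≠ 0; omega, ?_, ?_, hcop g i, ?_⟩
      · show |D g| ≤ _
        rw [abs_of_nonneg (by have := (hDle g).1; omega)]
        have := (hDle g).2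
        push_cast
        exact this
      · have h1 := hbb g i
        have h2 : (0 : ℤ) ≤ |β g i| := abs_nonneg _
        show |β g i| ≤ N
        linarith
      · intro t ht1 _
        exact hvalue g i t ht1)
    (fun p hp _ => hloc p hp)
  -- the clique
  apply hxN
  refine ⟨S, hS, fun g hg h hh hgh => ?_⟩
  have hz := (hy ((g, σ g), (h, σ h))).2
  have hmem : (g, h) ∈ G := by
    rw [← hz]
    refine mem_filter.2 ⟨mem_univ _, hgh, ?_⟩
    refine hsc.2.trans (hcard.trans ?_)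
    rw [Nat.cast_le]
    refine cnt_geR _ (a : ℤ) b _ (e h - e g) (D g) (β g (σ g)) (D h) (β h (σ h))
      (by have := (hDle g).1; omega) _ _ ?_ ?_
    · intro y
      have hcr := hcross g h (σ g) (σ h) hgh
      have hdr := hDrel g h hgh
      rw [← hcr]
      linear_combination y * hdr
    intro y hy
    unfold Rs at hy
    obtain ⟨hyI, hy1, -, -, hy3⟩ := mem_filter.1 hy
    have hy2 : (y : ℝ) ≤ N := by exact_mod_cast (mem_Icc.1 hyI).2
    have hyv := hvalue g (σ g) y hy1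
    have h6 : ((D g * y + β g (σ g) : ℤ) : ℝ) = (D g : ℝ) * y + (β g (σ g) : ℝ) := by
      push_cast; ring
    refine ⟨hy3 g hg, hy3 h hh, ?_, ?_⟩
    · rw [h6]
      refine le_trans ?_ hyv
      have h7 : (X : ℝ) ≤ N * (2 * ((2 * A ^ (m + 2) : ℕ) : ℝ)) :=
        (div_le_iff₀ (by positivity)).1 hsc.1
      have h8 : (0 : ℝ) < ((200 * S₀ * A ^ (m + 2) : ℕ) : ℝ) := by
        exact_mod_cast Nat.mul_pos (Nat.mul_pos (by norm_num) hS₀1) hdm
      rw [div_le_iff₀ h8]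
      push_cast at h7
      have h9 : (0 : ℝ) ≤ (N : ℝ) * (A : ℝ) ^ (m + 2) := by positivity
      have h10 : (1 : ℝ) ≤ (S₀ : ℝ) := by exact_mod_cast (by omega : 1 ≤ S₀)
      have h11 : (N : ℝ) * (A : ℝ) ^ (m + 2) ≤ (S₀ : ℝ) * ((N : ℝ) * (A : ℝ) ^ (m + 2)) :=
        le_mul_of_one_le_left h9 h10
      push_cast
      nlinarith
    · rw [h6]
      have h7 : (D g : ℝ) ≤ (A : ℝ) ^ (m + 2) := by exact_mod_cast (hDle g).2
      have h8 : (N : ℝ) * (2 * (A : ℝ) ^ (m + 2)) ≤ X := by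
        have := Nat.div_mul_le_self X (2 * A ^ (m + 2))
        rw [← hNdef] at this
        exact_mod_cast this
      have h9 := abs_le.1 (hbr g (σ g))
      have h10 : (1 : ℝ) ≤ (A : ℝ) ^ (m + 2) := by exact_mod_cast hdm
      have h11 : (D g : ℝ) * y ≤ (A : ℝ) ^ (m + 2) * N :=
        mul_le_mul h7 hy2 (Nat.cast_nonneg _) (by positivity)
      have h12 : (N : ℝ) ≤ N * (A : ℝ) ^ (m + 2) := le_mul_of_one_le_right hN0.le h10
      linarith [h9.2]
  rw [← hxG] at hmem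
  have h1 := (mem_filter.1 hmem).2.2
  exact h1

end Pool.Agent.H55.PC
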