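import Mathlib
import Pool.Agent.H55.PC.Core
import Pool.Graph.R_seed8.Y677.RSZ.FinInst

/-!
# The iterated equations for almost all constants from sifted sets

The theorem on arithmetic progressions in dense subsets of sifted sets (`Pool.Agent.Y677.RSZ.narrow`) is
from the library.
-/

set_option autoImplicit false
set_option maxHeartbeats 1000000

namespace Pool.Agent.H55.PC

open Finset Filter Polynomial
open Pool.Agent.Y677.RSZ (InProg Outside narrow)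
open Pool.Agent.TH977.PW (N Rough)
open Pool.Agent.W123.RU

open Classical in
/-- sets without long progressions have few elements with rough values -/
theorem few_of_free {ι : Type} [Fintype ι] [Nonempty ι] (f : ι → ℤ[X]) (hf : Poly.Sys f) (θ : ℝ)
    (hθ : 0 < θ) (r : ℕ) (hr : 2 ≤ r) (l : ℕ) (hl : 2 ≤ l) (ε : ℝ) (hε : 0 < ε) :
    ∃ Z₀ : ℕ, 1 ≤ Z₀ ∧ ∀ Z : ℕ, Z₀ ≤ Z → ∀ Y : ℕ, (Z : ℝ) ^ θ ≤ Y → Y ≤ Z → ∀ P : ℕ → Prop,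
      (∀ u d : ℕ, 1 ≤ d → ¬ ∀ i < l, P (u + i * d) ∧ Z < u + i * d ∧ u + i * d ≤ Z + Y) →
      (((Ioc Z (Z + Y)).filter (fun m => Rough f r m ∧ P m)).card : ℝ) ≤
        ε * Y / Real.log Z ^ (Fintype.card ι) := by
  obtain ⟨B, hB⟩ := narrow f hf θ hθ r hr l hl ε hε
  obtain ⟨Z₀, hZ₀⟩ := eventually_atTop.1 hB
  refine ⟨Z₀ + 1, by omega, fun Z hZ Y hY1 hY2 P hP => ?_⟩
  refine le_trans ?_ (hZ₀ Z (by omega) Y hY1 hY2 {m | Rough f r m ∧ P m} (fun m hm => hm.1))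
  rw [Nat.cast_le]
  unfold N
  apply card_le_card
  intro m hm
  obtain ⟨h1, h2, h3⟩ := mem_filter.1 hm
  refine mem_filter.2 ⟨h1, ⟨h2, h3⟩, ?_⟩
  rintro ⟨u, d, hd1, -, h4, -⟩
  exact hP u d hd1 fun i hi => ⟨(h4 i hi).1.2, (h4 i hi).2⟩

open Classical in
/-- **The theorem at all scales.** -/
theorem progP (T M : ℕ) (hTM : (18 / 5 : ℝ) * M < T) : ∃ C : ℕ, ∀ (m : ℕ) (e : Fin T → ℕ),
    StrictMono e → (∀ g, e g ≤ m) → ∀ a b : ℕ, 1 ≤ a → 1 ≤ b → IsCoprime (a : ℤ) b →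
    ∃ B X₁ : ℕ, 1 ≤ B ∧ ∀ (ι : Type) [Fintype ι] [Nonempty ι] (f : ι → ℤ[X]), Poly.Sys f →
    ∀ κ : ℕ, 1 ≤ κ → ∀ h : ℤ, ∀ θ : ℝ, 0 < θ → ∀ r : ℕ, 2 ≤ r → ∀ ε : ℝ, 0 < ε →
    ∃ Z₀ : ℕ, 1 ≤ Z₀ ∧ ∀ X : ℕ, X₁ ≤ X → ∀ Z : ℕ, Z₀ ≤ Z → ∀ Y : ℕ, (Z : ℝ) ^ θ ≤ Y → Y ≤ Z →
      (((Ioc Z (Z + Y)).filter (fun m : ℕ => Rough f r m ∧
        BadC M e a b C B X (κ * m + h))).card : ℝ) ≤ ε * Y / Real.log Z ^ (Fintype.card ι) := by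
  obtain ⟨C, hC⟩ := coreP T M hTM
  refine ⟨C, fun m e he hem a b ha hb hab => ?_⟩
  obtain ⟨n, q, B, hn, hq, hB, hcore⟩ := hC m e he hem a b ha hb hab
  obtain ⟨X₁, hX₁⟩ := eventually_atTop.1 hcore
  refine ⟨B, X₁, hB, fun ι _ _ f hf κ hκ h θ hθ r hr ε hε => ?_⟩
  obtain ⟨Z₀, hZ0, hZ₀⟩ := few_of_free f hf θ hθ r hr ((n + 1) * q + 1)
    (by have h0 : 0 < (n + 1) * q := Nat.mul_pos (Nat.succ_pos n) hq; omega) ε hε
  refine ⟨Z₀, hZ0, fun X hX Z hZ Y hY1 hY2 => ?_⟩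
  refine hZ₀ Z hZ Y hY1 hY2 (fun m => BadC M e a b C B X (κ * m + h)) ?_
  intro u d hd hall
  apply hX₁ X hX (κ * u + h) (κ * d) (Nat.mul_pos hκ hd)
  intro j hj
  have h1 : j * q < (n + 1) * q + 1 := by
    have : j * q ≤ (n + 1) * q := Nat.mul_le_mul_right _ (by omega)
    omega
  have h2 := (hall (j * q) h1).1
  have h3 : (κ : ℤ) * ((u + j * q * d : ℕ) : ℤ) + h =
      κ * u + h + j * (q * ((κ * d : ℕ) : ℤ)) := by push_cast; ring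
  rw [h3] at h2
  exact h2

end Pool.Agent.H55.PC
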